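import Pool.Agent.V5helper41.PD.All
import Pool.Agent.V5helper41.PD.Nor2

/-!
# Rémond's inequality in the strong form for generators of minimal extensions of `ℚ`

All fields are subfields of `AlgebraicClosure ℚ`; subgroups of the multiplicative group are
subgroups of the unit group of `AlgebraicClosure ℚ`.
-/

set_option autoImplicit false

namespace Pool.Agent.Results.MP_f61260_nt.MinimalExtensions

open Pool.Agent.H58P (Qb ht)
open Pool.Agent.W237.RK
open V5helper41.PD

/-- `β` lies in the division group of `Γ`: a positive power of `β` is an element of `Γ` -/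
def InDivisionGroup (Γ : Subgroup (AlgebraicClosure ℚ)ˣ) (β : AlgebraicClosure ℚ) : Prop :=
  ∃ n : ℕ, 0 < n ∧ ∃ g ∈ Γ, β ^ n = (g : AlgebraicClosure ℚ)

/-- the field `ℚ(Γ_div)` generated by the division group of `Γ` -/
noncomputable def divisionField (Γ : Subgroup (AlgebraicClosure ℚ)ˣ) :
    IntermediateField ℚ (AlgebraicClosure ℚ) :=
  IntermediateField.adjoin ℚ {y | InDivisionGroup Γ y}

/-- the degree `D_Γ(α)` of `α` over the field generated by the division group of `Γ` -/
noncomputable def divisionDegree (Γ : Subgroup (AlgebraicClosure ℚ)ˣ)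
    (α : AlgebraicClosure ℚ) : ℕ :=
  (minpoly (divisionField Γ) α).natDegree

/-- `Γ` is stable under all automorphisms of the field of algebraic numbers -/
def GaloisStable (Γ : Subgroup (AlgebraicClosure ℚ)ˣ) : Prop :=
  ∀ σ : AlgebraicClosure ℚ ≃ₐ[ℚ] AlgebraicClosure ℚ, ∀ g ∈ Γ,
    Units.map (σ : AlgebraicClosure ℚ →* AlgebraicClosure ℚ) g ∈ Γ

/-- there is no field strictly between `ℚ` and `ℚ(α)` -/
def NoIntermediateField (α : AlgebraicClosure ℚ) : Prop :=
  ∀ F : IntermediateField ℚ (AlgebraicClosure ℚ), F ≤ IntermediateField.adjoin ℚ {α} →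
    F = ⊥ ∨ F = IntermediateField.adjoin ℚ {α}

/-- `α` is a conjugate of `α⁻¹` over `ℚ` -/
def Reciprocal (α : AlgebraicClosure ℚ) : Prop := Polynomial.aeval α⁻¹ (minpoly ℚ α) = 0

/-- the division group of `Γ` is the division group of the group generated by the rational
integer `a` -/
def HasDivisionGroupOf (a : ℕ) (Γ : Subgroup (AlgebraicClosure ℚ)ˣ) : Prop :=
  ∀ β : AlgebraicClosure ℚ,
    InDivisionGroup Γ β ↔ ∃ m : ℕ, 0 < m ∧ ∃ k : ℤ, β ^ m = (a : AlgebraicClosure ℚ) ^ k

lemma kmu_le (Γ : Subgroup (AlgebraicClosure ℚ)ˣ) : Kmu ≤ divisionField Γ := by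
  rw [Kmu, divisionField, IntermediateField.adjoin_le_iff]
  rintro z ⟨n, hn, hz⟩
  exact IntermediateField.subset_adjoin _ _ ⟨n, hn, 1, one_mem _, by rw [hz, Units.val_one]⟩

lemma stable_div {Γ : Subgroup (AlgebraicClosure ℚ)ˣ} (h : GaloisStable Γ) :
    Stable (divisionField Γ) := by
  intro σ x hx
  have h1 : divisionField Γ ≤ (divisionField Γ).comap (σ : Qb →ₐ[ℚ] Qb) := by
    rw [divisionField, IntermediateField.adjoin_le_iff]
    rintro z ⟨n, hn, g, hg, hz⟩
    refine IntermediateField.subset_adjoin _ _ ⟨n, hn, _, h σ g hg, ?_⟩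
    show (σ z) ^ n = σ (g : Qb)
    rw [← map_pow, hz]
  exact h1 hx

lemma stable_div' {a : ℕ} {Γ : Subgroup (AlgebraicClosure ℚ)ˣ} (h : HasDivisionGroupOf a Γ) :
    Stable (divisionField Γ) := by
  intro σ x hx
  have h1 : divisionField Γ ≤ (divisionField Γ).comap (σ : Qb →ₐ[ℚ] Qb) := by
    rw [divisionField, IntermediateField.adjoin_le_iff]
    intro z hz
    obtain ⟨m, hm, k, hk⟩ := (h z).1 hz
    refine IntermediateField.subset_adjoin _ _ ((h (σ z)).2 ⟨m, hm, k, ?_⟩)
    rw [← map_pow, hk, map_zpow₀, map_natCast]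
  exact h1 hx

lemma divisionField_mono {Γ Γ' : Subgroup (AlgebraicClosure ℚ)ˣ} (h : Γ ≤ Γ') :
    divisionField Γ ≤ divisionField Γ' := by
  apply IntermediateField.adjoin.mono
  rintro z ⟨n, hn, g, hg, hz⟩
  exact ⟨n, hn, g, h hg, hz⟩

/-- **Rémond's inequality in the strong form for generators of minimal extensions of `ℚ`.** There is
an absolute constant `c > 0` such that the inequality `h(α) ≥ c / D_Γ(α)` holds in the following
cases, where `α` is a nonzero algebraic number.

(1) `Γ` is contained in a Galois stable group `Γ'` (for example the group generated by all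
conjugates of elements of `Γ`), `α` is not a root of unity, `ℚ(α) ∩ ℚ(Γ'_div) = ℚ`, and there is no
field strictly between `ℚ` and `ℚ(α)`, or, more generally, `α` is not a conjugate of `α⁻¹`.

(2) `Γ_div = ⟨a⟩_div`, where `a` is a squarefree positive integer (for example `Γ = ⟨a⟩`; for
`a = 1` this is `Γ_div = μ_∞`), `α` is not in `Γ_div`, and there is no field strictly between `ℚ` and
`ℚ(α)`. -/
theorem result :
    ∃ c : ℝ, 0 < c ∧
      ∀ α : AlgebraicClosure ℚ, α ≠ 0 → (∀ n : ℕ, 0 < n → α ^ n ≠ 1) →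
        (∀ Γ Γ' : Subgroup (AlgebraicClosure ℚ)ˣ, Γ ≤ Γ' → GaloisStable Γ' →
          divisionField Γ' ⊓ IntermediateField.adjoin ℚ {α} = ⊥ →
          (NoIntermediateField α ∨ ¬ Reciprocal α) →
          c / (divisionDegree Γ α : ℝ) ≤ NumberField.absLogHeight₁ α) ∧
        (∀ a : ℕ, Squarefree a → ∀ Γ : Subgroup (AlgebraicClosure ℚ)ˣ, HasDivisionGroupOf a Γ →
          ¬ InDivisionGroup Γ α → NoIntermediateField α →
          c / (divisionDegree Γ α : ℝ) ≤ NumberField.absLogHeight₁ α) := by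
  obtain ⟨A, hA0, hA⟩ := t_ADN'
  have hA1 : (0 : ℝ) < A := by exact_mod_cast hA0
  set c : ℝ := min (Real.log 1.28) (min (1 / 4000) (1 / ((A : ℝ) * 400 ^ A))) with hc
  have hcpos : 0 < c := by
    refine lt_min (Real.log_pos (by norm_num)) (lt_min (by norm_num) (by positivity))
  refine ⟨c, hcpos, fun α h0 hroot => ?_⟩
  have ht0 : ¬ Tor α := fun ⟨n, hn, h⟩ => hroot n hn h
  have hh0 : 0 ≤ NumberField.absLogHeight₁ α := by
    rw [Pool.Agent.H58P.absLogHeight₁_eq]
    exact Pool.Agent.H58R.ht_nonneg α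
  have hD : ∀ Γ : Subgroup (AlgebraicClosure ℚ)ˣ, (0 : ℝ) < divisionDegree Γ α := by
    intro Γ
    exact_mod_cast deg_pos _ α
  -- from a bound for the degree over `ℚ`
  have fin : ∀ (L : GF) (Γ : Subgroup (AlgebraicClosure ℚ)ˣ), divisionField Γ ≤ L →
      (minpoly L α).natDegree = (minpoly ℚ α).natDegree →
      (NoIntermediateField α ∨ ¬ Reciprocal α) →
      c / (divisionDegree Γ α : ℝ) ≤ NumberField.absLogHeight₁ α := by
    intro L Γ hΓL h2 hcase
    have h1 : c ≤ (minpoly ℚ α).natDegree * NumberField.absLogHeight₁ α := by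
      rcases hcase with hP | hr
      · refine le_trans ?_ (outside t_REC' t_SMU' t_NIN' A hA0 hA α h0 ht0 hP)
        exact le_min (min_le_left _ _) ((min_le_right _ _).trans (min_le_right _ _))
      · exact (min_le_left _ _).trans (smyth t_SMU' t_NIN' α h0 hr)
    have h3 : (minpoly ℚ α).natDegree ≤ divisionDegree Γ α := by
      rw [← h2]
      exact deg_mono hΓL α
    rw [div_le_iff₀ (hD Γ)]
    have h6 : ((minpoly ℚ α).natDegree : ℝ) ≤ divisionDegree Γ α := by exact_mod_cast h3
    calc c ≤ _ := h1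
      _ ≤ divisionDegree Γ α * NumberField.absLogHeight₁ α := by gcongr
      _ = _ := mul_comm _ _
  refine ⟨fun Γ Γ' hle hst hbot hcase => fin _ Γ (divisionField_mono hle)
    (nor2 t_GAL' _ α (stable_div hst) hbot) hcase, fun a ha Γ hΓ hnd hP => ?_⟩
  by_cases hin : α ∈ divisionField Γ
  · have h1 : divisionDegree Γ α = 1 := deg_one hin
    rw [h1, Nat.cast_one, div_one]
    have h2 : (divisionField Γ) =
        IntermediateField.adjoin ℚ
          {y : Qb | ∃ n : ℕ, 0 < n ∧ ∃ j : ℤ, y ^ n = (a : Qb) ^ j} := by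
      unfold divisionField
      congr 1
      ext y
      exact hΓ y
    rw [h2] at hin
    have h3 := inside t_NOR' t_LVL' t_CYC' t_PRI' t_NAB' t_KUM' t_CON' t_FIN' A hA0 hA a ha α h0 hP
      (fun h => hnd ((hΓ α).2 h)) hin
    exact (min_le_right _ _).trans h3
  · exact fin _ Γ le_rfl (t_NOR' _ α (stable_div' hΓ) hP hin).1 (Or.inl hP)

end Pool.Agent.Results.MP_f61260_nt.MinimalExtensions
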