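import Pool.Agent.V5helper74.RM.Quot
import Pool.Agent.V5helper74.RM.RealShare
import Pool.Agent.V5helper74.RM.LocShare

/-!
# Rémond's inequality and quotients of conjugates

All fields are subfields of `AlgebraicClosure ℚ`; subgroups of the multiplicative group are subgroups of the unit group of
`AlgebraicClosure ℚ`.

Let `Γ`, `Γ₁` be finitely generated, let `E` be an extension of bounded degree of `M = K(μ_∞, Γ₁^{1/n})`, `n` running over
the products of primes of a finite set `P`, and let `X` be a set of algebraic numbers whose small points lie in the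
division group of `Γ₁`; for instance the set of all totally real numbers, or of all the numbers at least `1 / r` of whose
conjugates are real, or have degree at most `d` over `ℚ_p`. We prove the strong inequality `h(α) ≥ c / D_Γ(α)` for all numbers `α` with a norm `ξ`
to a field between `ℚ(Γ_div)` and `ℚ(Γ_div, α)` which is not in the division group of `Γ` and all of whose `k`-fold
quotients of conjugates over `E` lie in `X`, up to roots of unity. For example `ξ` may be any product of a totally real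
number and of a radical over `E` (`k = 1`).
-/

set_option autoImplicit false

namespace Pool.Agent.Results.MP_f61260_nt.QuotientsOfConjugates

open Pool.Agent.H58P (Qb ht)
open Pool.Agent.W237.RK
open Pool.Agent.TH53.RP
open Pool.Agent.TH53.BL

/-- `β` lies in the division group of `Γ`: a positive power of `β` is an element of `Γ` -/
def InDivisionGroup (Γ : Subgroup (AlgebraicClosure ℚ)ˣ) (β : AlgebraicClosure ℚ) : Prop :=
  ∃ n : ℕ, 0 < n ∧ ∃ g ∈ Γ, β ^ n = (g : AlgebraicClosure ℚ)

/-- the field `ℚ(Γ_div)` generated by the division group of `Γ` -/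
noncomputable def divisionField (Γ : Subgroup (AlgebraicClosure ℚ)ˣ) :
    IntermediateField ℚ (AlgebraicClosure ℚ) :=
  IntermediateField.adjoin ℚ {y | InDivisionGroup Γ y}

/-- the degree `D_Γ(α)` of `α` over the field generated by the division group of `Γ` -/
noncomputable def divisionDegree (Γ : Subgroup (AlgebraicClosure ℚ)ˣ)
    (α : AlgebraicClosure ℚ) : ℕ :=
  (minpoly (divisionField Γ) α).natDegree

/-- the constant coefficient of the minimal polynomial of `α` over the field `F`, which is up to the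
sign the norm of `α` from `F(α)` to `F` -/
noncomputable def norm (F : IntermediateField ℚ (AlgebraicClosure ℚ)) (α : AlgebraicClosure ℚ) :
    AlgebraicClosure ℚ :=
  ((minpoly F α).coeff 0 : F)

/-- `F'` is a field between `ℚ(Γ_div)` and `ℚ(Γ_div, α)` -/
def Between (Γ : Subgroup (AlgebraicClosure ℚ)ˣ) (α : AlgebraicClosure ℚ)
    (F' : IntermediateField ℚ (AlgebraicClosure ℚ)) : Prop :=
  divisionField Γ ≤ F' ∧ F' ≤ divisionField Γ ⊔ IntermediateField.adjoin ℚ {α}

/-- the field generated over `K` by all roots of unity and by all `n`-th roots of all elements of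
`Γ₁`, for all positive integers `n` all of whose prime factors belong to `P` -/
noncomputable def smoothRootField (K : IntermediateField ℚ (AlgebraicClosure ℚ))
    (Γ₁ : Subgroup (AlgebraicClosure ℚ)ˣ) (P : Finset ℕ) :
    IntermediateField ℚ (AlgebraicClosure ℚ) :=
  K ⊔ IntermediateField.adjoin ℚ
    ({y | ∃ n : ℕ, 0 < n ∧ y ^ n = 1} ∪
      {y | ∃ n : ℕ, (0 < n ∧ ∀ q : ℕ, q.Prime → q ∣ n → q ∈ P) ∧
        ∃ g ∈ Γ₁, y ^ n = (g : AlgebraicClosure ℚ)})

/-- `X` has its small points in the division group of `Γ`, as in the problem -/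
def SmallPointsIn (X : Set (AlgebraicClosure ℚ)) (Γ : Subgroup (AlgebraicClosure ℚ)ˣ) : Prop :=
  ∃ c : ℝ, 0 < c ∧ ∀ x ∈ X, x ≠ 0 → ¬ InDivisionGroup Γ x → c ≤ NumberField.absLogHeight₁ x

/-- at least `1 / r` of the roots of the minimal polynomial of `x` over `ℚ` are real; for `r = 1` this means that `x` is
totally real -/
def RealShare (r : ℕ) (x : AlgebraicClosure ℚ) : Prop :=
  (minpoly ℚ x).natDegree ≤ r * ((minpoly ℚ x).rootSet ℝ).ncard

/-- at least `1 / r` of the roots in the algebraic closure of `ℚ_p` of the minimal polynomial of `x` over `ℚ` have degree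
at most `d` over `ℚ_p` -/
def LocalShare (p : ℕ) [Fact p.Prime] (d r : ℕ) (x : AlgebraicClosure ℚ) : Prop :=
  (minpoly ℚ x).natDegree ≤ r * {z ∈ (minpoly ℚ x).rootSet (PadicAlgCl p) |
    (minpoly ℚ_[p] z).natDegree ≤ d}.ncard

/-- the numbers with at least `1 / r` of their conjugates real, or of degree at most `d` over `ℚ_p` for some prime `p` in
`Q`, and the elements of `X'` -/
def base (Q : Finset ℕ) (d r : ℕ) (X' : Set (AlgebraicClosure ℚ)) : Set (AlgebraicClosure ℚ) :=
  {x | RealShare r x ∨ (∃ (p : ℕ) (_ : Fact p.Prime), p ∈ Q ∧ LocalShare p d r x) ∨ x ∈ X'}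

/-- the numbers all whose `k`-fold quotients of conjugates over `E` lie in `X`, up to roots of unity: for `k = 0` these
are the products of an element of `X` and of a root of unity, and `x` belongs to the class for `k + 1` if `σ x / x`
belongs to the class for `k` for all automorphisms `σ` over `E` -/
def quotientClass {M : IntermediateField ℚ (AlgebraicClosure ℚ)}
    (E : IntermediateField M (AlgebraicClosure ℚ)) (X : Set (AlgebraicClosure ℚ)) :
    ℕ → Set (AlgebraicClosure ℚ)
  | 0 => {x | x ≠ 0 ∧ ∃ ζ : AlgebraicClosure ℚ, (∃ n : ℕ, 0 < n ∧ ζ ^ n = 1) ∧ ∃ y ∈ X, x = ζ * y}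
  | k + 1 => {x | x ≠ 0 ∧ ∀ σ : AlgebraicClosure ℚ ≃ₐ[ℚ] AlgebraicClosure ℚ, (∀ e ∈ E, σ e = e) →
      σ x / x ∈ quotientClass E X k}

lemma quotientClass_eq {M : IntermediateField ℚ (AlgebraicClosure ℚ)}
    (E : IntermediateField M (AlgebraicClosure ℚ)) (X : Set (AlgebraicClosure ℚ)) (k : ℕ) :
    quotientClass E X k = Pool.Agent.V5helper74.RM.QC (E.restrictScalars ℚ) X k := by
  induction k with
  | zero => rfl
  | succ k ih =>
    ext x
    show (x ≠ 0 ∧ ∀ σ : AlgebraicClosure ℚ ≃ₐ[ℚ] AlgebraicClosure ℚ, (∀ e ∈ E, σ e = e) →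
      σ x / x ∈ quotientClass E X k) ↔ _
    rw [ih]
    rfl

/-- the small points of `base Q d r X'` -/
lemma small_base (Γ₁ : Subgroup (AlgebraicClosure ℚ)ˣ) (Q : Finset ℕ) (d r : ℕ)
    (X' : Set (AlgebraicClosure ℚ)) (hX : SmallPointsIn X' Γ₁) :
    ∃ c : ℝ, 0 < c ∧ ∀ x ∈ base Q d r X', x ≠ 0 → ¬ DivG Γ₁ x → c ≤ ht x := by
  classical
  obtain ⟨c₁, hc₁, h₁⟩ := hX
  obtain ⟨c₃, hc₃, h₃⟩ := Pool.Agent.V5helper74.RM.ht_real_share r
  have hloc : ∀ p : ℕ, ∃ c : ℝ, 0 < c ∧ ∀ _ : Fact p.Prime, ∀ x : Qb, x ≠ 0 →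
      LocalShare p d r x → ¬ Tor x → c ≤ ht x := by
    intro p
    by_cases hp : p.Prime
    · obtain ⟨c, hc, h⟩ := @Pool.Agent.V5helper74.RM.ht_loc_share p ⟨hp⟩ d r
      exact ⟨c, hc, fun _ x hx0 hx hnt => h x hx0 hx hnt⟩
    · exact ⟨1, one_pos, fun hF => absurd hF.out hp⟩
  choose c hc h using hloc
  obtain ⟨c₂, hc₂, h₂⟩ : ∃ c₂ : ℝ, 0 < c₂ ∧ ∀ p ∈ Q, c₂ ≤ c p := by
    induction Q using Finset.induction_on with
    | empty => exact ⟨1, one_pos, by simp⟩
    | insert a s _ ih =>
      obtain ⟨e, he, hes⟩ := ih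
      refine ⟨min e (c a), lt_min he (hc a), ?_⟩
      intro p hp
      rcases Finset.mem_insert.1 hp with rfl | hp
      · exact min_le_right _ _
      · exact (min_le_left _ _).trans (hes p hp)
  refine ⟨min c₃ (min c₁ c₂), lt_min hc₃ (lt_min hc₁ hc₂), ?_⟩
  intro x hx hx0 hnd
  have hnt : ¬ Tor x := fun h => hnd (Pool.Agent.V5helper40.RRed.tor_divG h)
  rcases hx with hx | ⟨p, hF, hpQ, hx⟩ | hx
  · refine (min_le_left _ _).trans (h₃ x hx0 ?_ hx)
    intro h
    exact hnt ⟨2, two_pos, h⟩
  · exact ((min_le_right _ _).trans (min_le_right _ _)).trans ((h₂ p hpQ).trans (h p hF x hx0 hx hnt))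
  · refine ((min_le_right _ _).trans (min_le_left _ _)).trans ?_
    have h3 := h₁ x hx hx0 hnd
    rwa [Pool.Agent.H58P.absLogHeight₁_eq] at h3

/-- **Quotients of conjugates.** Let `Γ`, `Γ₁` be finitely generated subgroups of `ℚ̄*`, let `K` be a number field, `P`
and `Q` finite sets of primes, `d` and `r` integers and `X'` a set of algebraic numbers whose small points lie in the
division group of `Γ₁`. Let `X` consist of the numbers at least `1 / r` of whose conjugates are real, of the numbers at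
least `1 / r` of whose conjugates have degree at most `d` over `ℚ_p` for some `p` in `Q`, and of the elements of `X'`. There is a positive integer `A` such that the following holds. Let `E` be an
extension of degree at most `D` of the field `K(μ_∞, Γ₁^{1/n} : n a product of primes of P)`, and let `ξ`, not in the
division group of `Γ`, have all its `k`-fold quotients of conjugates over `E` in `X`, up to roots of unity. Let `α` be
`ξ` itself, or any algebraic number such that `ξ` is, up to the sign, the norm of `α` to some field between `ℚ(Γ_div)` and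
`ℚ(Γ_div, α)`. Put `c = 1 / (A (2 ^ k D) ^ A)`. Then `h(α) ≥ c / D_Γ(α)`. -/
theorem result :
    ∀ (Γ Γ₁ : Subgroup (AlgebraicClosure ℚ)ˣ), Γ.FG → Γ₁.FG →
    ∀ (K : IntermediateField ℚ (AlgebraicClosure ℚ)), FiniteDimensional ℚ K →
    ∀ (P : Finset ℕ), (∀ p ∈ P, p.Prime) → ∀ (Q : Finset ℕ) (d r : ℕ)
      (X' : Set (AlgebraicClosure ℚ)), SmallPointsIn X' Γ₁ → ∃ A : ℕ, 0 < A ∧
      ∀ (k D : ℕ) (E : IntermediateField (smoothRootField K Γ₁ P) (AlgebraicClosure ℚ)),
        FiniteDimensional (smoothRootField K Γ₁ P) E →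
        Module.finrank (smoothRootField K Γ₁ P) E ≤ D →
        ∀ ξ : AlgebraicClosure ℚ, ξ ∈ quotientClass E (base Q d r X') k → ¬ InDivisionGroup Γ ξ →
          ∀ α : AlgebraicClosure ℚ, (α = ξ ∨ ∃ F', Between Γ α F' ∧ norm F' α = ξ) →
            1 / ((A : ℝ) * (2 ^ k * (D : ℝ)) ^ A) / (divisionDegree Γ α : ℝ) ≤
              NumberField.absLogHeight₁ α := by
  intro Γ Γ₁ hΓ hΓ₁ K hK P hP Q d r X' hX
  obtain ⟨A, hA, hmain⟩ := Pool.Agent.V5helper74.RM.main Γ Γ₁ hΓ hΓ₁ K hK P hP (base Q d r X')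
    (small_base Γ₁ Q d r X' hX)
  refine ⟨A, hA, ?_⟩
  intro k D E hE hD ξ hξ hnd α hα
  rw [quotientClass_eq] at hξ
  have key : 1 / ((A : ℝ) * (2 ^ k * (D : ℝ)) ^ A) ≤ ((minpoly (divF Γ) α).natDegree : ℝ) * ht α :=
    hmain k D E hE hD ξ hξ hnd α (by
      rcases hα with h | ⟨F', h1, h2⟩
      · exact Or.inl h
      · exact Or.inr ⟨F', h1, h2⟩)
  have h2 : (0 : ℝ) < ((minpoly (divF Γ) α).natDegree : ℝ) := by
    rw [← orb_ncard]
    exact_mod_cast orb_ncard_pos _ _
  have hdeg : (divisionDegree Γ α : ℝ) = ((minpoly (divF Γ) α).natDegree : ℝ) := rfl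
  have hht := Pool.Agent.H58P.absLogHeight₁_eq α
  rw [hdeg, hht, div_le_iff₀ h2, mul_comm (ht α)]
  exact key

end Pool.Agent.Results.MP_f61260_nt.QuotientsOfConjugates
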