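import Pool.Agent.V5helper40.RRed.Smooth

/-!
# Sums of radicals over the field of smooth roots

All fields are subfields of `AlgebraicClosure ℚ`; subgroups of the multiplicative group are
subgroups of the unit group of `AlgebraicClosure ℚ`.
-/

set_option autoImplicit false

namespace Pool.Agent.Results.MP_f61260_nt.RadicalsOverSmoothRoots

open Pool.Agent.H58P (Qb ht)
open Pool.Agent.W237.RK
open Pool.Agent.TH53.RP
open Pool.Agent.TH53.BL
open Pool.Agent.V5helper40.RRed

/-- `β` lies in the division group of `Γ`: a positive power of `β` is an element of `Γ` -/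
def InDivisionGroup (Γ : Subgroup (AlgebraicClosure ℚ)ˣ) (β : AlgebraicClosure ℚ) : Prop :=
  ∃ n : ℕ, 0 < n ∧ ∃ g ∈ Γ, β ^ n = (g : AlgebraicClosure ℚ)

/-- the field `ℚ(Γ_div)` generated by the division group of `Γ` -/
noncomputable def divisionField (Γ : Subgroup (AlgebraicClosure ℚ)ˣ) :
    IntermediateField ℚ (AlgebraicClosure ℚ) :=
  IntermediateField.adjoin ℚ {y | InDivisionGroup Γ y}

/-- the degree `D_Γ(α)` of `α` over the field generated by the division group of `Γ` -/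
noncomputable def divisionDegree (Γ : Subgroup (AlgebraicClosure ℚ)ˣ)
    (α : AlgebraicClosure ℚ) : ℕ :=
  (minpoly (divisionField Γ) α).natDegree

/-- the constant coefficient of the minimal polynomial of `α` over the field `F`, which is up to the
sign the norm of `α` from `F(α)` to `F` -/
noncomputable def norm (F : IntermediateField ℚ (AlgebraicClosure ℚ)) (α : AlgebraicClosure ℚ) :
    AlgebraicClosure ℚ :=
  ((minpoly F α).coeff 0 : F)

/-- `F'` is a field between `ℚ(Γ_div)` and `ℚ(Γ_div, α)` -/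
def Between (Γ : Subgroup (AlgebraicClosure ℚ)ˣ) (α : AlgebraicClosure ℚ)
    (F' : IntermediateField ℚ (AlgebraicClosure ℚ)) : Prop :=
  divisionField Γ ≤ F' ∧ F' ≤ divisionField Γ ⊔ IntermediateField.adjoin ℚ {α}

/-- the field generated over `K` by all roots of unity and by all `n`-th roots of all elements of
`Γ₁`, for all positive integers `n` all of whose prime factors belong to `P` -/
noncomputable def smoothRootField (K : IntermediateField ℚ (AlgebraicClosure ℚ))
    (Γ₁ : Subgroup (AlgebraicClosure ℚ)ˣ) (P : Finset ℕ) :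
    IntermediateField ℚ (AlgebraicClosure ℚ) :=
  K ⊔ IntermediateField.adjoin ℚ
    ({y | ∃ n : ℕ, 0 < n ∧ y ^ n = 1} ∪
      {y | ∃ n : ℕ, (0 < n ∧ ∀ q : ℕ, q.Prime → q ∣ n → q ∈ P) ∧
        ∃ g ∈ Γ₁, y ^ n = (g : AlgebraicClosure ℚ)})

/-- `α` is the quotient of a sum of `k` radicals over `E` by a nonzero sum of `l` radicals
over `E`; `θ` is a radical over `E` if a positive power of `θ` lies in `E` -/
def IsQuotientOfSumsOfRadicals {M : IntermediateField ℚ (AlgebraicClosure ℚ)}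
    (E : IntermediateField M (AlgebraicClosure ℚ)) (k l : ℕ) (α : AlgebraicClosure ℚ) : Prop :=
  ∃ (θ : Fin k → AlgebraicClosure ℚ) (θ' : Fin l → AlgebraicClosure ℚ),
    (∀ j, ∃ m : ℕ, 0 < m ∧ θ j ^ m ∈ E) ∧ (∀ j, ∃ m : ℕ, 0 < m ∧ θ' j ^ m ∈ E) ∧
    ∑ j, θ' j ≠ 0 ∧ α = (∑ j, θ j) / ∑ j, θ' j

/-- **Sums of radicals over the field of smooth roots.** Let `Γ`, `Γ₁` be finitely generated
subgroups of `ℚ̄*`, let `K` be a number field and `P` a finite set of primes. There is a positive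
integer `A`, depending only on `Γ`, `Γ₁`, `K` and `P`, such that the following holds. Let `E` be an
extension of degree at most `D` of the field `K(μ_∞, Γ₁^{1/n} : n a product of primes of P)`, and
let `α`, nonzero and not in the division group of `Γ`, be the quotient of a sum of `k` radicals over
`E` by a sum of `l` radicals over `E`. Let `ξ` be `α` itself, or any algebraic number such that `α`
is, up to the sign, the norm of `ξ` to some field between `ℚ(Γ_div)` and `ℚ(Γ_div, ξ)`. Put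
`n = k + l`, `B = (2^(n^2 + 1) 2 n!)^(n (n + 1))` and `c = 1 / (A (D B)^A)`. Then
`h(ξ) ≥ c / D_Γ(ξ)`. -/
theorem result :
    ∀ (Γ Γ₁ : Subgroup (AlgebraicClosure ℚ)ˣ), Γ.FG → Γ₁.FG →
    ∀ (K : IntermediateField ℚ (AlgebraicClosure ℚ)), FiniteDimensional ℚ K →
    ∀ (P : Finset ℕ), (∀ p ∈ P, p.Prime) → ∃ A : ℕ, 0 < A ∧
      ∀ (k l D : ℕ) (E : IntermediateField (smoothRootField K Γ₁ P) (AlgebraicClosure ℚ)),
        FiniteDimensional (smoothRootField K Γ₁ P) E →
        Module.finrank (smoothRootField K Γ₁ P) E ≤ D →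
        ∀ α : AlgebraicClosure ℚ, α ≠ 0 → ¬ InDivisionGroup Γ α →
          IsQuotientOfSumsOfRadicals E k l α →
          ∀ ξ : AlgebraicClosure ℚ, (ξ = α ∨ ∃ F', Between Γ ξ F' ∧ norm F' ξ = α) →
            1 / ((A : ℝ) * ((D : ℝ) * ((2 : ℝ) ^ ((k + l) ^ 2 + 1) *
                (2 * ((k + l).factorial : ℝ))) ^ ((k + l) * (k + l + 1))) ^ A) /
                (divisionDegree Γ ξ : ℝ) ≤
              NumberField.absLogHeight₁ ξ := by
  intro Γ Γ₁ hΓ hΓ₁ K hK P hP
  obtain ⟨A₁, hA₁, hmain₁⟩ := main5 Γ Γ₁ hΓ hΓ₁ K hK P hP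
  obtain ⟨A₂, hA₂, hmain₂⟩ := norm_case' Γ Γ₁ hΓ hΓ₁ K hK P hP
  refine ⟨max A₁ A₂, lt_of_lt_of_le hA₁ (le_max_left _ _), ?_⟩
  intro k l D E hE hD α hα0 hnd hα ξ hξ
  obtain ⟨θ, θ', hθ, hθ', hQ, hquot⟩ := hα
  have hD0 : 0 < D := lt_of_lt_of_le Module.finrank_pos hD
  have hDB : 0 < D * B2 (k + l) := Nat.mul_pos hD0 (B2_pos _)
  have hc : ∀ A : ℕ, 1 / ((A : ℝ) * ((D : ℝ) * ((2 : ℝ) ^ ((k + l) ^ 2 + 1) *
      (2 * ((k + l).factorial : ℝ))) ^ ((k + l) * (k + l + 1))) ^ A) =
      lowc A (D * B2 (k + l)) := by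
    intro A
    rw [lowc, B2, one_div]
    push_cast
    rfl
  have key : lowc (max A₁ A₂) (D * B2 (k + l)) ≤ ((minpoly (divF Γ) ξ).natDegree : ℝ) * ht ξ := by
    rcases hξ with rfl | ⟨F', hF', hN⟩
    · refine (lowc_anti hA₁ hDB (le_max_left _ _)).trans ?_
      rw [← orb_ncard]
      exact hmain₁ k l D E hE hD θ θ' hθ hθ' ξ (by rw [hquot, div_mul_cancel₀ _ hQ]) hQ hα0 hnd
    · refine (lowc_anti hA₂ hDB (le_max_right _ _)).trans ?_
      have hξ0 : ξ ≠ 0 := by
        rintro rfl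
        apply hα0
        rw [← hN, norm, minpoly.zero]
        simp
      exact hmain₂ k l D E hE hD θ θ' hθ hθ' hQ ξ hξ0 F' hF'.1 hF'.2 (hN.trans hquot)
        (by
          have h1 : ((minpoly F' ξ).coeff 0 : Qb) = α := hN
          rw [h1]
          exact hnd)
  have h2 : (0 : ℝ) < ((minpoly (divF Γ) ξ).natDegree : ℝ) := by
    rw [← orb_ncard]
    exact_mod_cast orb_ncard_pos _ _
  have hdeg : (divisionDegree Γ ξ : ℝ) = ((minpoly (divF Γ) ξ).natDegree : ℝ) := rfl
  have hht := Pool.Agent.H58P.absLogHeight₁_eq ξ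
  have hcA := hc (max A₁ A₂)
  rw [← hcA] at key
  rw [hdeg, hht, div_le_iff₀ h2, mul_comm (ht ξ)]
  exact key

end Pool.Agent.Results.MP_f61260_nt.RadicalsOverSmoothRoots
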