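import Pool.Agent.V5helper13.RSM.Main
import Pool.Agent.V5helper13.RSM.Cmp
import Pool.Agent.V5helper13.RSM.Uni

set_option autoImplicit false

/-!
# Rémond's inequality over division groups in CM fields, for numbers which are not self-inversive

Let `c` be complex conjugation on `ℚ̄` (for an embedding `ι` of `ℚ̄` into `ℂ`) and let `N` be the maximal CM
field, the field of all `x` with `σ (c x) = c (σ x)` for all automorphisms `σ`; it contains all roots
of unity, all totally real numbers and all numbers all of whose conjugates have absolute value one.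
A number `α ≠ 0` is self-inversive over a field `M` if `1 / c(α)` is a conjugate of `α` over `M`.

(1) If `α ≠ 0` is not self-inversive over `N`, then `[N(α) : N] h(α) ≥ 1/6`.

(2) Let `K` be a number field and let `Γ` be a group of nonzero elements of `B = N K` (every finitely
generated `Γ` is of this kind, and for groups of rational numbers one can take `K = ℚ`), and let `α ≠ 0`
be not self-inversive over `N`. Then `D_Γ(α) h(α) ≥ 1 / (6 [K : ℚ] t)` with `t = [B(α) ∩ B(Γ_div) : B]`.

(3) Let all conjugates of all elements of `Γ` have absolute value one (for instance `Γ` trivial, or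
generated by `(3 + 4 i) / 5`). Then `D_Γ(α) h(α) ≥ 1/6` for all `α ≠ 0` which are not self-inversive over
`ℚ(Γ_div)`, and the inequality of Rémond holds for `Γ` and all `α` if and only if it holds for `Γ` and
all self-inversive `α`.

The proof follows Smyth and Schinzel. Let `g_β` be the minimal polynomial over `N` of the conjugate `β` of
`α`, and `g_β - g_β(0) g_β^ = a_β x ^ k + ⋯`, where `g^(x) = x ^ D c(g)(1/x)`. The number `∏ a_β` is rational, and
`A ^ (2 D) ∏ a_β` is an integer, where `A` is the leading coefficient of the minimal polynomial of `α`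
over `ℤ` (valuations of `ℚ̄`). The bound for the coefficients of functions bounded by one in the unit
disc gives `|a_β| ≤ 2 (x_β + y_β) exp (2 x_β)`, where `x_β` is the logarithm of the Mahler measure of `g_β` and
`x_β - y_β = log |g_β(0)|`. For (2) one uses that the minimal polynomial of `α` over `B(Γ_div)` has
coefficients in `B(α) ∩ B(Γ_div)`.
-/

open Polynomial

namespace Pool.Agent.Results.MP_f61260_nt.RelativeSmyth

open Pool.Agent.V5helper13.RSM (Qb cmField InDiv kum inter kummerDegree divisionField)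

/-- `c` is complex conjugation for the embedding `ι` -/
def IsConjugation (ι : Qb →+* ℂ) (c : Qb ≃ₐ[ℚ] Qb) : Prop :=
  ∀ x : Qb, ι (c x) = starRingEnd ℂ (ι x)

/-- the degree of `α` over the field `M` -/
noncomputable def degree (M : IntermediateField ℚ Qb) (α : Qb) : ℕ := (minpoly M α).natDegree

/-- `1 / c(α)` is a conjugate of `α` over `M` -/
def SelfInversive (c : Qb ≃ₐ[ℚ] Qb) (M : IntermediateField ℚ Qb) (α : Qb) : Prop :=
  aeval ((c α)⁻¹) (minpoly M α) = 0

/-- the absolute logarithmic Weil height of a root of the irreducible polynomial `f` -/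
noncomputable def height (f : ℤ[X]) : ℝ :=
  Real.log (f.map (Int.castRingHom ℂ)).mahlerMeasure / f.natDegree

/-- all conjugates of the elements of `Γ` have absolute value one -/
def Unitary (ι : Qb →+* ℂ) (Γ : Subgroup Qbˣ) : Prop :=
  ∀ g ∈ Γ, ∀ σ : Qb ≃ₐ[ℚ] Qb, ‖ι (σ (g : Qb))‖ = 1

/-- the inequality of Rémond holds, with some constant, for the `α` in `A` outside the division group -/
def RemondFor (Γ : Subgroup Qbˣ) (A : Set Qb) : Prop :=
  ∃ C : ℝ, 0 < C ∧ ∀ α ∈ A, α ≠ 0 → ¬ InDiv Γ α → ∀ f : ℤ[X], Irreducible f → aeval α f = 0 →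
    C / degree (divisionField Γ) α ≤ height f

lemma one (ι : Qb →+* ℂ) (c : Qb ≃ₐ[ℚ] Qb) (hc : IsConjugation ι c) (α : Qb) (h0 : α ≠ 0)
    (hs : ¬ SelfInversive c (cmField c) α) (f : ℤ[X]) (hf : Irreducible f) (h : aeval α f = 0) :
    (1 : ℝ) / 6 ≤ degree (cmField c) α * height f :=
  Pool.Agent.V5helper13.RSM.relative_smyth ι c hc α h0 f hf h hs

lemma height_pos {M : IntermediateField ℚ Qb} {α : Qb} {f : ℤ[X]}
    (h : (1 : ℝ) / 6 ≤ degree M α * height f) : 0 ≤ height f := by
  by_contra hcon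
  push Not at hcon
  have : (degree M α : ℝ) * height f ≤ 0 :=
    mul_nonpos_of_nonneg_of_nonpos (Nat.cast_nonneg _) hcon.le
  linarith

lemma two (ι : Qb →+* ℂ) (c : Qb ≃ₐ[ℚ] Qb) (hc : IsConjugation ι c) (K : IntermediateField ℚ Qb)
    (hK : FiniteDimensional ℚ K) (Γ : Subgroup Qbˣ)
    (hΓ : ∀ g ∈ Γ, (g : Qb) ∈ cmField c ⊔ K) (α : Qb) (h0 : α ≠ 0)
    (hs : ¬ SelfInversive c (cmField c) α) (f : ℤ[X]) (hf : Irreducible f) (h : aeval α f = 0) :
    (1 : ℝ) / 6 ≤ Module.finrank ℚ K * kummerDegree (cmField c ⊔ K) Γ α *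
      degree (divisionField Γ) α * height f := by
  have h1 := one ι c hc α h0 hs f hf h
  have h2 := height_pos h1
  have h3 : degree (cmField c) α ≤
      Module.finrank ℚ K * kummerDegree (cmField c ⊔ K) Γ α * degree (divisionField Γ) α := by
    rw [mul_assoc]
    exact (Pool.Agent.V5helper13.RSM.deg_comp (cmField c) K hK α).trans (Nat.mul_le_mul_left _
      ((Pool.Agent.V5helper13.RSM.deg_main (cmField c ⊔ K) Γ hΓ α).trans
      (Nat.mul_le_mul_left _ (Pool.Agent.V5helper13.RSM.deg_div (cmField c ⊔ K) Γ α))))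
  have h4 : (degree (cmField c) α : ℝ) ≤
      Module.finrank ℚ K * kummerDegree (cmField c ⊔ K) Γ α * degree (divisionField Γ) α := by
    exact_mod_cast h3
  exact h1.trans (mul_le_mul_of_nonneg_right h4 h2)

lemma div_le_cm (ι : Qb →+* ℂ) (c : Qb ≃ₐ[ℚ] Qb) (hc : IsConjugation ι c) (Γ : Subgroup Qbˣ)
    (hΓ : Unitary ι Γ) : divisionField Γ ≤ cmField c := by
  rw [divisionField, IntermediateField.adjoin_le_iff]
  rintro y ⟨n, hn, g, hg, hy⟩
  refine Pool.Agent.V5helper13.RSM.mem_cm_of_norm hc fun σ => ?_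
  have h1 := hΓ g hg σ
  rw [← hy, map_pow, map_pow, norm_pow] at h1
  exact (pow_eq_one_iff_of_nonneg (norm_nonneg _) hn.ne').1 h1

lemma three (ι : Qb →+* ℂ) (c : Qb ≃ₐ[ℚ] Qb) (hc : IsConjugation ι c) (Γ : Subgroup Qbˣ)
    (hΓ : Unitary ι Γ) (α : Qb) (h0 : α ≠ 0)
    (hs : ¬ SelfInversive c (divisionField Γ) α) (f : ℤ[X]) (hf : Irreducible f)
    (h : aeval α f = 0) : (1 : ℝ) / 6 ≤ degree (divisionField Γ) α * height f := by
  have hle := div_le_cm ι c hc Γ hΓ
  obtain ⟨h1, h2⟩ := Pool.Agent.V5helper13.RSM.minpoly_sub hle α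
  have h3 := one ι c hc α h0 (fun hh => hs (h2 _ hh)) f hf h
  have h4 := height_pos h3
  have h5 : (degree (cmField c) α : ℝ) ≤ degree (divisionField Γ) α := by exact_mod_cast h1
  exact h3.trans (mul_le_mul_of_nonneg_right h5 h4)

/-- **Main result.** -/
theorem result :
    (∃ (ι : Qb →+* ℂ) (c : Qb ≃ₐ[ℚ] Qb), IsConjugation ι c) ∧
    ∀ (ι : Qb →+* ℂ) (c : Qb ≃ₐ[ℚ] Qb), IsConjugation ι c →
      (∀ α : Qb, α ≠ 0 → ¬ SelfInversive c (cmField c) α →
        ∀ f : ℤ[X], Irreducible f → aeval α f = 0 →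
          (1 : ℝ) / 6 ≤ degree (cmField c) α * height f) ∧
      (∀ K : IntermediateField ℚ Qb, FiniteDimensional ℚ K →
        ∀ Γ : Subgroup Qbˣ, (∀ g ∈ Γ, (g : Qb) ∈ cmField c ⊔ K) →
        ∀ α : Qb, α ≠ 0 → ¬ SelfInversive c (cmField c) α →
        ∀ f : ℤ[X], Irreducible f → aeval α f = 0 →
          (1 : ℝ) / 6 ≤ Module.finrank ℚ K * kummerDegree (cmField c ⊔ K) Γ α *
            degree (divisionField Γ) α * height f) ∧
      (∀ Γ : Subgroup Qbˣ, Unitary ι Γ →
        (∀ α : Qb, α ≠ 0 → ¬ SelfInversive c (divisionField Γ) α →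
          ∀ f : ℤ[X], Irreducible f → aeval α f = 0 →
            (1 : ℝ) / 6 ≤ degree (divisionField Γ) α * height f) ∧
        (RemondFor Γ Set.univ ↔ RemondFor Γ {α | SelfInversive c (divisionField Γ) α})) := by
  refine ⟨Pool.Agent.V5helper13.RSM.exists_conj_pair, fun ι c hc => ⟨one ι c hc, two ι c hc, ?_⟩⟩
  intro Γ hΓ
  refine ⟨three ι c hc Γ hΓ, ?_, ?_⟩
  · rintro ⟨C, hC, h⟩
    exact ⟨C, hC, fun α _ => h α (Set.mem_univ _)⟩
  · rintro ⟨C, hC, h⟩
    refine ⟨min C (1 / 6), lt_min hC (by norm_num), fun α _ h0 hα f hf hfα => ?_⟩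
    have hi : IsIntegral (divisionField Γ) α := (Pool.Agent.V5helper13.RSM.isIntQ α).tower_top
    have hD : (0 : ℝ) < degree (divisionField Γ) α := by
      exact_mod_cast minpoly.natDegree_pos hi
    by_cases hs : SelfInversive c (divisionField Γ) α
    · exact (div_le_div_of_nonneg_right (min_le_left _ _) hD.le).trans (h α hs h0 hα f hf hfα)
    · rw [div_le_iff₀ hD]
      have h1 := three ι c hc Γ hΓ α h0 hs f hf hfα
      rw [mul_comm]
      exact (min_le_right _ _).trans h1

end Pool.Agent.Results.MP_f61260_nt.RelativeSmyth
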